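import Mathlib
import Pool.Agent.H7.PCF.Bounds

/-!
# pcf of intervals of regular cardinals: ultrafilters which are unbounded

For a limit ordinal `α` let `a_α` be the set of the regular cardinals `κ` with `|α|⁺ ≤ κ < ℵ_α`. If
`|pcf(a_α)| > |a_α|` then there is a limit ordinal `δ ≤ α` with `|a_δ| ≤ |a_α|` such that the
ultraproducts of `a_δ` for the ultrafilters which contain all end segments of `a_δ` have more than
`|a_α|` cofinalities; all of them lie between `ℵ_δ` and `ℵ_δ ^ |a_δ|`, so `ℵ_δ ^ |a_δ| ≥ ℵ_(δ + ξ)` for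
all ordinals `ξ` of cardinality at most `|a_α|`. So there is a limit ordinal `α` with
`|pcf(a_α)| > |a_α|` if and only if there is one for which already the ultrafilters containing the end
segments give more than `|a_α|` cofinalities.

Proof. Let `D` be an ultrafilter on `a_α` and let `δ` be the least ordinal such that the cardinals below
`ℵ_δ` form a set in `D`. If `δ` is a successor then `D` is principal. If `δ` is a limit then `D` contains
`a_δ` and its end segments. There are at most `|a_α|` such `δ`, and `|a_δ| ≤ |a_α|`.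
-/

set_option autoImplicit false

open Cardinal Ordinal Set Order

universe u

namespace Pool.Agent.Results.MP_d25c2b_lc.UnboundedUltrafilters

open Pool.Agent.H7.PCF

theorem power_ge {δ ξ : Ordinal.{u}} {ν : Cardinal.{u + 1}}
    (hξ : Cardinal.lift.{u + 1} ξ.card ≤ ν) (h : ν < #(pcfTop δ)) :
    Cardinal.lift.{u + 1} (ℵ_ (δ + ξ)) ≤ Cardinal.lift.{u + 1} (ℵ_ δ) ^ #(aa δ) := by
  by_contra hn
  rw [not_le] at hn
  refine absurd (h.trans_le (mk_le_mk_of_subset (pcfTop_sub δ))) (not_lt.2 (le_trans ?_ hξ))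
  rw [← Cardinal.mk_Iio_ordinal]
  refine (mk_le_mk_of_subset ?_).trans (mk_image_le (f := fun ζ => ℵ_ (δ + ζ)) (s := Iio ξ))
  rintro l ⟨h1, h2⟩
  obtain ⟨ε, rfl⟩ := mem_range_aleph_iff.2 ((aleph0_le_aleph δ).trans h1)
  have h3 : δ ≤ ε := aleph_le_aleph.1 h1
  refine ⟨ε - δ, ?_, by simp only [Ordinal.add_sub_cancel_of_le h3]⟩
  have h4 : ε < δ + ξ := aleph_lt_aleph.1 (Cardinal.lift_lt.1 (h2.trans_lt hn))
  rw [← Ordinal.add_sub_cancel_of_le h3] at h4
  exact (add_lt_add_iff_left δ).1 h4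

/-- **Unbounded ultrafilters.** -/
theorem result :
    (∀ α : Ordinal.{u}, IsSuccLimit α → #(aa α) < #(pcf (aa α)) →
      ∃ δ ≤ α, IsSuccLimit δ ∧ #(aa δ) ≤ #(aa α) ∧ #(aa α) < #(pcfTop δ) ∧
        ∀ ξ : Ordinal.{u}, Cardinal.lift.{u + 1} ξ.card ≤ #(aa α) →
          Cardinal.lift.{u + 1} (ℵ_ (δ + ξ)) ≤ Cardinal.lift.{u + 1} (ℵ_ δ) ^ #(aa δ)) ∧
    ((∃ α : Ordinal.{u}, IsSuccLimit α ∧ #(aa α) < #(pcf (aa α))) ↔
      ∃ α : Ordinal.{u}, IsSuccLimit α ∧ #(aa α) < #(pcfTop α)) := by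
  refine ⟨?_, ?_⟩
  · intro α hα h
    obtain ⟨δ, h1, h2, h3, h4⟩ := exists_top hα h
    exact ⟨δ, h1, h2, h3, h4, fun ξ hξ => power_ge hξ h4⟩
  · constructor
    · rintro ⟨α, hα, h⟩
      obtain ⟨δ, h1, h2, h3, h4⟩ := exists_top hα h
      exact ⟨δ, h2, h3.trans_lt h4⟩
    · rintro ⟨α, hα, h⟩
      exact ⟨α, hα, h.trans_le (mk_le_mk_of_subset (pcfTop_subset α))⟩

end Pool.Agent.Results.MP_d25c2b_lc.UnboundedUltrafilters
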